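import Pool.Agent.AT2.E.VB
import Pool.Agent.AT.E.V8

/-!
# Project AT2, block E: the critical point (`τ = 1`)

`Cz`: a zero of the system for `τ = 1` with the one-vertex inequalities. Everything that the potential
and the chain of the edge inequality need: `vertex`, `qe_pos`, `bw_pos`, `sum_bw`, `split`, `oppHyp`,
`reg_edge`, `good_edge`, `k4`, `ecrit`, `gdv_uu`, `hv_neg`, `hv_pos`.
-/

namespace Pool.Agent.AT2.E

open Complex Pool.Agent.S3 Pool.Agent.AT.E
open Pool.Agent.S3.E hiding bo ro be KK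
open Pool.Agent.H25.RK (gdv gdv_re_lt gdv_hasDerivAt)

variable {ι : Type*}

/-- A critical point with the one-vertex inequalities. -/
structure Cz (a w : ι → ℝ) (N : ι → Finset ι) (z : ι → ℂ) : Prop where
  zr : Zr a w N 1 z
  vb : Vb a w N 1 z
  vc : AT.E.Vc N z

namespace Cz

variable {a w : ι → ℝ} {N : ι → Finset ι} {z : ι → ℂ}

theorem symm (h : Cz a w N z) {i j : ι} (hij : j ∈ N i) : i ∈ N j := h.zr.symm hij

theorem pos (h : Cz a w N z) (i : ι) : 0 < (z i).re ∧ (z i).re < Real.pi / 2 ∧ 0 < (z i).im :=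
  h.zr.pos i

theorem bo_one (h : Cz a w N z) (j : ι) : bo 1 z j = (starRingEnd ℂ) (cos (z j)) :=
  bb_one (h.zr.cos_ne j)

theorem thpos (h : Cz a w N z) (i : ι) : 0 < th (z i).re (z i).im :=
  th_pos (h.pos i).1 (h.pos i).2.1 (h.pos i).2.2

theorem xxpos (h : Cz a w N z) (i : ι) : 0 < xx (z i).re (z i).im :=
  xx_pos (h.pos i).1 (h.pos i).2.1 (h.pos i).2.2

/-- `θ ≤ π/4`. -/
theorem th_le (h : Cz a w N z) (i : ι) : th (z i).re (z i).im ≤ Real.pi / 4 :=
  (th_le_iff (h.pos i).1 (h.pos i).2.1 (h.pos i).2.2).2 (h.vc.s2_le i)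

theorem al_ph_lt (h : Cz a w N z) {i j : ι} (hij : j ∈ N i) :
    al (z i).re (z i).im + ph (z j).re (z j).im < Real.pi / 2 := by
  have := h.vb.al_be_lt i j hij
  rwa [be_one] at this

/-- `θ + θ' < π/2` on every edge. -/
theorem S_lt (h : Cz a w N z) {i j : ι} (hij : j ∈ N i) :
    th (z i).re (z i).im + th (z j).re (z j).im < Real.pi / 2 :=
  S3.E.S_lt (h.pos i).1 (h.pos i).2.1 (h.pos i).2.2 (h.pos j).1 (h.pos j).2.1 (h.pos j).2.2
    (h.al_ph_lt hij) (h.al_ph_lt (h.symm hij))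

/-- The hypotheses of the edge inequality hold on every edge. -/
theorem oppHyp (h : Cz a w N z) {i j : ι} (hij : j ∈ N i) :
    OppHyp (th (z i).re (z i).im) (th (z j).re (z j).im) (xx (z i).re (z i).im)
      (xx (z j).re (z j).im) :=
  oppHyp_small (h.thpos i) (h.thpos j) (h.th_le i) (h.th_le j) (h.S_lt hij)

theorem gd_uu (h : Cz a w N z) (i : ι) :
    gd (UU (xx (z i).re (z i).im) (th (z i).re (z i).im)) = z i :=
  S3.E.gd_uu (h.pos i).1 (h.pos i).2.1 (h.pos i).2.2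

theorem bo_w_re_pos (h : Cz a w N z) {i j : ι} (hij : j ∈ N i) :
    0 < (bo 1 z j * tan (z i)).re := h.zr.w_re_pos (h.vb.al_be_lt i j hij)

theorem w_pos (h : Cz a w N z) {i j : ι} (hij : j ∈ N i) :
    0 < ((starRingEnd ℂ) (cos (z j)) * tan (z i)).re ∧
      0 < ((starRingEnd ℂ) (cos (z j)) * tan (z i)).im := by
  have h1 := h.bo_w_re_pos hij
  have h2 := h.zr.w_im_pos i j
  rw [h.bo_one] at h1 h2
  exact ⟨h1, h2⟩

theorem qe_eq_ash (h : Cz a w N z) {i j : ι} (hij : j ∈ N i) :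
    qe (z i) (z j) = ash (bo 1 z j * tan (z i)) := by
  have h1 := h.w_pos hij
  rw [qe_eq (h.pos i).1 (h.pos i).2.1 (h.pos i).2.2 (h.pos j).1 (h.pos j).2.1 (h.pos j).2.2,
    h.bo_one, ash_eq_log h1.1 h1.2.le, arsh]

theorem qe_im_eq (h : Cz a w N z) {i j : ι} (hij : j ∈ N i) :
    (qe (z i) (z j)).im = RR (bo 1 z j * tan (z i)) := by
  rw [h.qe_eq_ash hij, ash_im]

theorem qe_re_eq (h : Cz a w N z) {i j : ι} (hij : j ∈ N i) :
    (qe (z i) (z j)).re = PP (bo 1 z j * tan (z i)) := by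
  rw [h.qe_eq_ash hij, ash_re]

/-- `q` is in the open first quadrant, `im q < π/2`. -/
theorem qe_pos (h : Cz a w N z) {i j : ι} (hij : j ∈ N i) :
    0 < (qe (z i) (z j)).re ∧ 0 < (qe (z i) (z j)).im ∧ (qe (z i) (z j)).im < Real.pi / 2 := by
  have h1 := h.bo_w_re_pos hij
  have h2 := h.zr.w_im_pos i j
  rw [h.qe_eq_ash hij, ash_re, ash_im]
  exact ⟨PP_pos h1, RR_pos h2, RR_lt h1⟩

/-- `sinh q_ij cos z_i = conj (cos z_j) sin z_i`. -/
theorem sinh_qe (h : Cz a w N z) {i j : ι} (hij : j ∈ N i) :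
    sinh (qe (z i) (z j)) * cos (z i) = (starRingEnd ℂ) (cos (z j)) * sin (z i) := by
  rw [h.qe_eq_ash hij, ← h.bo_one j]
  exact h.zr.sinh_eq hij

/-- The vertex equation. -/
theorem vertex (h : Cz a w N z) (i : ι) :
    (a i : ℂ) * z i = (Real.pi : ℂ) + I * (∑ j ∈ N i, qe (z i) (z j) + (w i : ℂ) * uu (z i)) := by
  have h1 : ash (tan (z i)) = uu (z i) := ash_tan (h.pos i).1 (h.pos i).2.1 (h.pos i).2.2
  rw [h.zr.eqn i, Finset.sum_congr rfl fun j hj => (h.qe_eq_ash hj), h1]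

theorem vertex_re (h : Cz a w N z) (i : ι) : a i * (z i).re =
    Real.pi - (∑ j ∈ N i, (qe (z i) (z j)).im + w i * th (z i).re (z i).im) := by
  have h1 := congrArg re (h.vertex i)
  rw [re_ofReal_mul, add_re, ofReal_re, I_mul_re, add_im, im_sum, im_ofReal_mul, uu,
    UU_im] at h1
  linarith

theorem vertex_im (h : Cz a w N z) (i : ι) : a i * (z i).im =
    ∑ j ∈ N i, (qe (z i) (z j)).re + w i * xx (z i).re (z i).im := by
  have h1 := congrArg im (h.vertex i)
  rw [im_ofReal_mul, add_im, ofReal_im, I_mul_im, add_re, re_sum, re_ofReal_mul, uu,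
    UU_re] at h1
  linarith

theorem bw_pos (h : Cz a w N z) {i j : ι} (hij : j ∈ N i) : 0 < bw (z i) (z j) :=
  div_pos (h.qe_pos hij).1 (h.pos i).2.2

/-- The weights of the slots have sum `a`. -/
theorem sum_bw (h : Cz a w N z) (i : ι) :
    ∑ j ∈ N i, bw (z i) (z j) + w i * (xx (z i).re (z i).im / (z i).im) = a i := by
  have h1 := h.vertex_im i
  have h2 := (h.pos i).2.2.ne'
  unfold bw
  rw [← Finset.sum_div, ← mul_div_assoc, ← add_div, ← h1]
  exact mul_div_cancel_right₀ _ h2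

/-- The canonical split. -/
theorem split (h : Cz a w N z) {i j : ι} (hij : j ∈ N i) :
    Split (th (z i).re (z i).im) (th (z j).re (z j).im) (xx (z i).re (z i).im)
      (xx (z j).re (z j).im) (bw (z i) (z j)) (bw (z j) (z i)) where
  b0 := h.bw_pos hij
  b0' := h.bw_pos (h.symm hij)
  hQ := by
    rw [h.gd_uu i, bw, div_mul_cancel₀ _ (h.pos i).2.2.ne']
    rfl
  hQ' := by
    rw [h.gd_uu j, bw, div_mul_cancel₀ _ (h.pos j).2.2.ne']
    rfl

/-- (H-alpha). -/
theorem alt (h : Cz a w N z) {i j : ι} (hij : j ∈ N i) :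
    2 * ph (z i).re (z i).im + ph (z j).re (z j).im + (qe (z i) (z j)).im < Real.pi := by
  rw [h.qe_im_eq hij]
  exact h.vc.star i j hij

theorem cos_sq_polar (h : Cz a w N z) (i : ι) :
    cos (z i) ^ 2 = (‖cos (z i) ^ 2‖ : ℂ) * exp (-(2 * ph (z i).re (z i).im : ℝ) * I) := by
  conv_lhs => rw [cos_polar (h.pos i).1 (h.pos i).2.1]
  rw [mul_pow, norm_pow, ← Complex.exp_nat_mul]
  push_cast
  congr 2
  ring

/-- (K4), `|κ_i| ≤ |κ_j|`. -/
theorem k4_aux (h : Cz a w N z) {i j : ι} (hij : j ∈ N i) (hle : ‖cos (z i)‖ ≤ ‖cos (z j)‖) {T : ℂ}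
    (hT : T ^ 2 = 1 / cos (z i) ^ 2 + 1 / (starRingEnd ℂ) (cos (z j)) ^ 2 - 1) (hT0 : 0 < T.re) :
    0 < (T * (1 / cos (z i) ^ 2 + 1 / (starRingEnd ℂ) (cos (z j)) ^ 2) *
      (cos (z i) ^ 2 + (starRingEnd ℂ) (cos (z j)) ^ 2)).re := by
  have hki := norm_cos_sq (z i)
  have hkj := norm_cos_sq (z j)
  have hkk : k2 (z i).re (z i).im ≤ k2 (z j).re (z j).im := by
    rw [← hki, ← hkj]
    exact pow_le_pow_left₀ (norm_nonneg _) hle 2
  have hY : (starRingEnd ℂ) (cos (z j)) ^ 2 =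
      ((k2 (z j).re (z j).im : ℝ) : ℂ) * exp ((2 * ph (z j).re (z j).im : ℝ) * I) := by
    conv_lhs => rw [cos_polar (h.pos j).1 (h.pos j).2.1]
    rw [map_mul, conj_ofReal, ← exp_conj, map_mul, map_neg, conj_ofReal, conj_I, mul_pow,
      ← Complex.exp_nat_mul, ← hkj]
    push_cast
    congr 2
    ring
  have htan : 1 / (starRingEnd ℂ) (cos (z j)) ^ 2 - 1 =
      ((tt (z j).re (z j).im ^ 2 : ℝ) : ℂ) * exp (-(2 * al (z j).re (z j).im : ℝ) * I) := by
    have e1 : 1 / cos (z j) ^ 2 - 1 = tan (z j) ^ 2 := by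
      have := h.zr.cos_ne j
      rw [tan_eq_sin_div_cos]
      field_simp
      linear_combination -(sin_sq_add_cos_sq (z j))
    have e2 := congrArg (starRingEnd ℂ) e1
    rw [map_sub, map_div₀, map_one, map_pow, map_pow] at e2
    rw [e2]
    conv_lhs => rw [tan_polar (h.pos j).1 (h.pos j).2.1]
    rw [map_mul, conj_ofReal, ← exp_conj, map_mul, conj_ofReal, conj_I, mul_pow,
      ← Complex.exp_nat_mul]
    push_cast
    congr 2
    ring
  have hX : cos (z i) ^ 2 = ((k2 (z i).re (z i).im : ℝ) : ℂ) *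
      exp (-(2 * ph (z i).re (z i).im : ℝ) * I) := by
    conv_lhs => rw [h.cos_sq_polar i, norm_pow, hki]
  have hG : 0 < 2 * k2 (z i).re (z i).im * k2 (z j).re (z j).im +
      (k2 (z j).re (z j).im ^ 2 + k2 (z i).re (z i).im ^ 2) *
        Real.cos (2 * ph (z i).re (z i).im + 2 * ph (z j).re (z j).im) -
      Real.tan (ph (z i).re (z i).im) * (k2 (z j).re (z j).im ^ 2 - k2 (z i).re (z i).im ^ 2) *
        Real.sin (2 * ph (z i).re (z i).im + 2 * ph (z j).re (z j).im) := by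
    have h3 := h.vc.phi i
    have h4 : k2 (z j).re (z j).im ≤ 2 * Real.cos (2 * ph (z j).re (z j).im) := by
      have h5 := h.vc.s2_le j
      rw [← S3.E.Zr.norm_one_sub, ← abs_of_nonneg (norm_nonneg (1 - cos (z j) ^ 2)), ← sq_le_one_iff_abs_le_one,
        ← Complex.normSq_eq_norm_sq, Complex.normSq_apply, sub_re, sub_im, one_re, one_im,
        h.cos_sq_polar j, norm_pow, hkj, ← ofReal_neg, re_ofReal_mul, im_ofReal_mul,
        exp_ofReal_mul_I_re, exp_ofReal_mul_I_im, Real.cos_neg, Real.sin_neg] at h5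
      have h6 := Real.sin_sq_add_cos_sq (2 * ph (z j).re (z j).im)
      have h7 := h.zr.k2pos j
      have h8 : k2 (z j).re (z j).im * (k2 (z j).re (z j).im -
          2 * Real.cos (2 * ph (z j).re (z j).im)) ≤ 0 := by
        linear_combination h5 + (k2 (z j).re (z j).im) ^ 2 * (-h6)
      by_contra hc
      push Not at hc
      have := mul_pos h7 (sub_pos.2 hc)
      linarith
    exact k4_three (h.zr.phpos i).le h3.1 (h.vb.k2_ge i) h3.2 hkk (h.vb.k2_le j) (h.zr.phpos j).le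
      (h.vb.ph_le j) h4
  exact k4_geo hX hY (h.zr.k2pos i) hkk (h.zr.phpos i) (h.vb.ph_le i) (h.zr.phpos j) (h.vb.ph_le j)
    (pow_pos (h.zr.ttpos j) 2) htan (h.zr.alpos j) (h.al_ph_lt (h.symm hij)) hT hT0 hG

/-- (K4). -/
theorem k4 (h : Cz a w N z) {i j : ι} (hij : j ∈ N i) {T : ℂ}
    (hT : T ^ 2 = 1 / cos (z i) ^ 2 + 1 / (starRingEnd ℂ) (cos (z j)) ^ 2 - 1) (hT0 : 0 < T.re) :
    0 < (T * (1 / cos (z i) ^ 2 + 1 / (starRingEnd ℂ) (cos (z j)) ^ 2) *
      (cos (z i) ^ 2 + (starRingEnd ℂ) (cos (z j)) ^ 2)).re := by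
  rcases le_total ‖cos (z i)‖ ‖cos (z j)‖ with hle | hle
  · exact h.k4_aux hij hle hT hT0
  · have h1 := h.k4_aux (h.symm hij) hle (T := (starRingEnd ℂ) T) (by
      rw [← map_pow, hT, map_sub, map_add, map_div₀, map_div₀, map_one, map_pow, map_pow,
        Complex.conj_conj]
      ring) (by rwa [conj_re])
    have h2 : (starRingEnd ℂ) T * (1 / cos (z j) ^ 2 + 1 / (starRingEnd ℂ) (cos (z i)) ^ 2) *
        (cos (z j) ^ 2 + (starRingEnd ℂ) (cos (z i)) ^ 2) =
        (starRingEnd ℂ) (T * (1 / cos (z i) ^ 2 + 1 / (starRingEnd ℂ) (cos (z j)) ^ 2) *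
      (cos (z i) ^ 2 + (starRingEnd ℂ) (cos (z j)) ^ 2)) := by
      rw [map_mul, map_mul, map_add, map_add, map_div₀, map_div₀, map_one, map_pow, map_pow,
        Complex.conj_conj]
      ring
    rw [h2, conj_re] at h1
    exact h1

theorem Lc_uu (h : Cz a w N z) (i : ι) :
    (Lc (uu (z i))).re = -Real.log ‖cos (z i)‖ ∧ (Lc (uu (z i))).im = ph (z i).re (z i).im :=
  S3.E.Lc_uu (h.pos i).1 (h.pos i).2.1 (h.pos i).2.2

theorem reg_edge (h : Cz a w N z) {i j : ι} (hij : j ∈ N i) :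
    Reg (uu (z i)) ((starRingEnd ℂ) (uu (z j))) := by
  have := (h.oppHyp hij).reg (xx (z i).re (z i).im) (xx (z j).re (z j).im)
  rw [← UU_conj] at this
  exact this

theorem QO_edge (h : Cz a w N z) {i j : ι} (hij : j ∈ N i) :
    QO (uu (z i)) ((starRingEnd ℂ) (uu (z j))) := by
  refine ⟨h.reg_edge hij, ?_, ?_, ?_, ?_⟩
  · rw [uu, UU_re]; exact (h.xxpos i).le
  · rw [conj_re, uu, UU_re]; exact (h.xxpos j).le
  · rw [uu, UU_im]; exact (h.thpos i).le
  · rw [conj_im, uu, UU_im]; linarith [h.thpos j]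

theorem good_aux (h : Cz a w N z) {i j : ι} (hij : j ∈ N i) :
    S3.Good (uu (z i)) ((starRingEnd ℂ) (uu (z j))) := by
  have hq := h.QO_edge hij
  have hr := h.reg_edge hij
  have f1 := h.Lc_uu i
  have f2 := h.Lc_uu j
  have f3 : Lc ((starRingEnd ℂ) (uu (z j))) = (starRingEnd ℂ) (Lc (uu (z j))) := by
    apply Lc_conj
    have := hr.right
    rwa [conj_im, abs_neg] at this
  have p1 := h.vb.ph_le i
  have p2 := h.vb.ph_le j
  have p3 := h.zr.phpos i
  have p4 := h.zr.phpos j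
  have hqe := h.qe_pos hij
  have hqe' : qq (uu (z i)) ((starRingEnd ℂ) (uu (z j))) = qe (z i) (z j) := by
    rw [qe, uu, uu, UU_conj]
  have c1 : (Lc ((starRingEnd ℂ) (uu (z j)))).im = -ph (z j).re (z j).im := by
    rw [f3, conj_im, f2.2]
  have c2 : (Lc ((starRingEnd ℂ) (uu (z j)))).re = -Real.log ‖cos (z j)‖ := by
    rw [f3, conj_re, f2.1]
  have g1 := neg_lcy_le hr (by rw [c1, f1.2]; linarith)
  have goal : (Lc (uu (z i))).im - (Lc ((starRingEnd ℂ) (uu (z j)))).im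
      - (lcy (uu (z i)) ((starRingEnd ℂ) (uu (z j)))).im
      + (qq (uu (z i)) ((starRingEnd ℂ) (uu (z j)))).im < Real.pi := by
    have h1 := h.alt hij
    rw [f1.2] at g1
    rw [c1, f1.2, hqe']
    linarith
  exact good_own hr hq.ur hq.wr hq.ui hq.wi goal

/-- principal branches at an edge -/
theorem good_edge (h : Cz a w N z) {i j : ι} (hij : j ∈ N i) :
    S3.Good (uu (z i)) ((starRingEnd ℂ) (uu (z j))) ∧
    S3.Good ((starRingEnd ℂ) (uu (z j))) (uu (z i)) := by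
  refine ⟨h.good_aux hij, ?_⟩
  have h1 := h.good_aux (h.symm hij)
  have h2 := h1.conj (h.reg_edge (h.symm hij))
  rwa [conj_conj] at h2

/-- The critical point at an edge: `i` has `c < 0`. -/
theorem ecrit (h : Cz a w N z) {i j : ι} (hij : j ∈ N i) :
    ECrit (uu (z i)) (-((starRingEnd ℂ) (uu (z j)))) (yy (uu (z i)) ((starRingEnd ℂ) (uu (z j))))
      (qe (z i) (z j)) (-((starRingEnd ℂ) (qe (z j) (z i)))) (-(2 * Real.pi * bw (z i) (z j)))
      (2 * Real.pi * bw (z j) (z i)) := by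
  have hr := h.reg_edge hij
  obtain ⟨g1, g2⟩ := h.good_edge hij
  have hO := h.oppHyp hij
  have hji := h.symm hij
  have hb := h.bw_pos hij
  have hb' := h.bw_pos hji
  set u := uu (z i) with hu
  set w := (starRingEnd ℂ) (uu (z j)) with hw
  have hw' : w = UU (xx (z j).re (z j).im) (-(th (z j).re (z j).im)) := by
    rw [hw, uu, UU_conj]
  have hrn := hr.neg_right
  have g1n := g1.neg_right
  have g2n := g2.neg_left hr.symm
  have ey1 : yy u (-w) = yy u w := yy_neg_right u w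
  have ey2 : yy (-w) u = yy u w := by rw [yy_neg_left, yy_comm]
  have hq1 : qq u w = qe (z i) (z j) := by rw [qe, hw']; rfl
  have hq2 : qq w u = (starRingEnd ℂ) (qe (z j) (z i)) := by
    have e1 : qe (z j) (z i) = qq ((starRingEnd ℂ) w) ((starRingEnd ℂ) u) := by
      rw [qe, hw, conj_conj, hu, uu, uu, UU_conj]
    rw [e1, qq_conj hr.symm, conj_conj]
  have ci := cosh_uu (h.pos i).1 (h.pos i).2.1 (h.pos i).2.2
  have cj := cosh_uu (h.pos j).1 (h.pos j).2.1 (h.pos j).2.2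
  rw [← hu] at ci
  have cj' : cosh w * (starRingEnd ℂ) (cos (z j)) = 1 := by
    rw [hw, ← conj_cosh', ← map_mul, cj, map_one]
  have ni : cos (z i) ≠ 0 := h.zr.cos_ne i
  have nj : (starRingEnd ℂ) (cos (z j)) ≠ 0 := by
    rw [Ne, map_eq_zero]; exact h.zr.cos_ne j
  have hcu : cosh u = 1 / cos (z i) := by field_simp; exact ci
  have hcw : cosh w = 1 / (starRingEnd ℂ) (cos (z j)) := by field_simp; exact cj'
  refine ⟨⟨sdom_op hr g1, ?_⟩, ?_, ?_, ?_, ?_, ?_⟩
  · have := sdom_op hrn.symm g2n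
    rwa [ey2] at this
  · have := ey_add_eq hrn g1n g2n
    rwa [ey1] at this
  · rw [ev_op hr g1, hq1]
  · have := ev_op hrn.symm g2n
    rw [ey2, qq_neg_left hr.symm, hq2] at this
    exact this
  · have e := A_op hrn
    rw [ey1] at e
    rw [e, TT_neg_right, cosh_neg]
    have hT : TT u w ^ 2 = 1 / cos (z i) ^ 2 + 1 / (starRingEnd ℂ) (cos (z j)) ^ 2 - 1 := by
      have := one_add_TT_sq hr
      rw [hcu, hcw] at this
      simp only [div_pow, one_pow] at this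
      linear_combination this
    have k := h.k4 hij hT (TT_re_pos hr)
    have e2 : -(2 * (Real.pi : ℂ) * TT u w * (1 + TT u w ^ 2) ^ 2 / (cosh u ^ 2 * cosh w ^ 2))
        = ((-(2 * Real.pi) : ℝ) : ℂ) * (TT u w * (1 / cos (z i) ^ 2 +
          1 / (starRingEnd ℂ) (cos (z j)) ^ 2) * (cos (z i) ^ 2 + (starRingEnd ℂ) (cos (z j)) ^ 2)) := by
      rw [one_add_TT_sq hr, hcu, hcw]
      push_cast
      field_simp
      ring
    rw [e2, re_ofReal_mul]
    have hpi := Real.pi_pos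
    have := mul_pos (mul_pos two_pos hpi) k
    linarith
  · intro α β hαβ
    have e := qf_op hrn ((-(2 * Real.pi * bw (z i) (z j)) : ℝ) : ℂ)
      ((2 * Real.pi * bw (z j) (z i) : ℝ) : ℂ) α β
    rw [ey1] at e
    rw [e]
    have k := qf_neg hO hb hb' (h.xxpos i) (h.xxpos j) (p := α) (q := -β) (by
      rcases hαβ with h1 | h1
      · exact Or.inl h1
      · exact Or.inr (neg_ne_zero.2 h1))
    rw [← hw'] at k
    change (-(2 / Real.pi) * (((α : ℂ) ^ 2 + ((-β : ℝ) : ℂ) ^ 2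
        - 2 * tanh u * tanh w * ((α : ℂ) * ((-β : ℝ) : ℂ))) / TT u w)
      + I / (Real.pi : ℂ) ^ 2 * (((-(2 * Real.pi * bw (z i) (z j)) : ℝ) : ℂ) * (α : ℂ) ^ 2
          / cosh u ^ 2
        + ((2 * Real.pi * bw (z j) (z i) : ℝ) : ℂ) * ((-β : ℝ) : ℂ) ^ 2 / cosh w ^ 2)).re < 0 at k
    rw [TT_neg_right, cosh_neg, tanh_neg]
    convert k using 2
    push_cast
    ring

/-- `v_c = z/π` for a vertex with `c < 0`, `v_c = -conj z/π` for a vertex with `c > 0`. -/
theorem gdv_uu (h : Cz a w N z) (i : ι) :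
    gdv (uu (z i)) = z i / Real.pi ∧
    gdv (-((starRingEnd ℂ) (uu (z i)))) = -((starRingEnd ℂ) (z i)) / Real.pi := by
  have hpi : (Real.pi : ℂ) ≠ 0 := by exact_mod_cast Real.pi_ne_zero
  have ht : |(uu (z i)).im| < Real.pi / 2 := by
    rw [uu, UU_im]
    exact abs_th_lt (h.pos i).1 (h.pos i).2.1 (h.pos i).2.2
  have h1 : gdv (uu (z i)) = z i / Real.pi := by
    have := gd_eq ht
    rw [uu, h.gd_uu i] at this
    rw [eq_div_iff hpi, mul_comm]
    exact this.symm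
  refine ⟨h1, ?_⟩
  have ht' : |((starRingEnd ℂ) (uu (z i))).im| < Real.pi / 2 := by rwa [conj_im, abs_neg]
  rw [gdv_neg ht', gdv_conj ht, h1, map_div₀, conj_ofReal, neg_div]

end Cz

variable [Finite ι] {a w : ι → ℝ} {N : ι → Finset ι} {z : ι → ℂ}

theorem Zr.vc (h : Zr a w N 1 z) : AT.E.Vc N z where
  s2_le := fun i => (h.vx i).sig3 (h.k2_le i) fun j _ => h.ro_le j
  phi := h.phi3
  star := fun i j hj => by
    have h1 := (h.phi3 i).1
    have h2 := (h.phi3 j).1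
    have h3 : RR (bo 1 z j * tan (z i)) ≤ Real.pi / 2 := ((h.vx i).sl j hj).r1
    have h4 := Real.pi_gt_three
    linarith

/-- A zero of the system for `τ = 1` is a critical point with all the properties of `Cz`. -/
theorem Zr.cz (h : Zr a w N 1 z) : Cz a w N z := ⟨h, h.vb, h.vc⟩

/-- **Existence of the critical point**, with all the properties of `Cz`. -/
theorem exists_cz {ι : Type*} [Fintype ι] {a w : ι → ℝ} {N : ι → Finset ι} (hN : Nbr a w N) :
    ∃ z : ι → ℂ, Cz a w N z := by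
  obtain ⟨z, hz⟩ := exists_crit hN
  exact ⟨z, hz.cz⟩

theorem Zr.D_pos (h : Zr a w N 1 z) (i : ι) :
    0 < 2 + 2 * cc (z i).im * gg (z i).re + gg (z i).re ^ 2 - cc (z i).im ^ 2 :=
  V8_D (h.pos i).1 (h.pos i).2.1 (h.pos i).2.2 (h.pos_lt i)

/-- `Im q_ij + Re z_j < π / 2`. -/
theorem Zr.qe_add_lt (h : Zr a w N 1 z) {i j : ι} (hij : j ∈ N i) :
    (qe (z i) (z j)).im + (z j).re < Real.pi / 2 := by
  rw [h.cz.qe_im_eq hij]
  have hs := (h.vx i).sl j hij
  have hb : be 1 z j = ph (z j).re (z j).im := one_mul _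
  rw [hb] at hs
  refine V8_pair (h.pos i).1 (h.pos i).2.1 (h.pos i).2.2 (h.pos j).1 (h.pos j).2.1
    (h.D_pos i) (h.D_pos j) hs ?_
  rw [AT.E.Zr.ro_one, norm_cos_sq]

end Pool.Agent.AT2.E
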