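import Pool.Agent.AT.E.Defs
import Pool.Agent.S3.E.Geo
import Pool.Agent.S3.E.GeoC
import Pool.Agent.S3.E.OGeo

/-!
# Project AT2, block E: the critical point of an alternating tree with clasps

Notation as in `Pool.Agent.AT.E`. In addition, the vertex `i` has the slot `u_i`, `sinh u_i = tan z_i`,
with the weight `h i ≥ 0`: a leaf of weight `2` at the node `i` contributes `1 / 2` to `h i` and to
`a i`. The vertex equation is `a z = π + i (∑ q_j + h u)`.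
-/

namespace Pool.Agent.AT2.E

open Real Pool.Agent.AT.E
open Pool.Agent.S3.E hiding bo ro be KK

variable {ι : Type*}

/-- The vertex equation `a z = π + i (∑ q_j + h u)`, `q_j = p_j + i r_j`, `u = x + i θ`. -/
structure Vx (a h R I : ℝ) (J : Finset ι) (ρ β p r : ι → ℝ) : Prop where
  a3 : 3 ≤ a
  h0 : 0 ≤ h
  ne : J.Nonempty ∨ 0 < h
  card : (J.card : ℝ) + h ≤ a
  big : 0 < h → 7 / 2 ≤ a ∧ (J.card : ℝ) + h < a
  R0 : 0 < R
  R1 : R < π / 2
  I0 : 0 < I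
  sl : ∀ j ∈ J, Slot R I (ρ j) (β j) (p j) (r j)
  hR : a * R + (∑ j ∈ J, r j + h * th R I) = π
  hI : a * I = ∑ j ∈ J, p j + h * xx R I

/-- The system at time `τ`. -/
noncomputable def GG (a h : ι → ℝ) (N : ι → Finset ι) (τ : ℝ) (z : ι → ℂ) (i : ι) : ℂ :=
  (a i : ℂ) * z i - (π : ℂ) - Complex.I * (∑ j ∈ N i, ash (bo τ z j * Complex.tan (z i)) +
    (h i : ℂ) * ash (Complex.tan (z i)))

/-- The combinatorics. -/
structure Nbr (a h : ι → ℝ) (N : ι → Finset ι) : Prop where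
  a3 : ∀ i, 3 ≤ a i
  h0 : ∀ i, 0 ≤ h i
  ne : ∀ i, (N i).Nonempty ∨ 0 < h i
  card : ∀ i, ((N i).card : ℝ) + h i ≤ a i
  big : ∀ i, 0 < h i → 1 / 2 ≤ h i ∧ 7 / 2 ≤ a i ∧ ((N i).card : ℝ) + h i < a i
  symm : ∀ i j, j ∈ N i → i ∈ N j

end Pool.Agent.AT2.E
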