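import Pool.Agent.AT.E.Top
import Pool.Agent.AT2.E.Defs
import Pool.Agent.S3.E.Sl
import Pool.Agent.S3.E.SlB
import Pool.Agent.S3.E.SlC

/-!
# Project AT2, block E: from a zero of the system to the vertex equations

Let `(τ, z) ∈ KK`, `GG = 0`.
`R < π/2`: otherwise `κ = - i sinh I`, `Re κ = 0`, against `re_cos_pos`.
`I > 0`: if `I = 0` then `tan z = tan R ≥ 0`, `0 = a I = ∑ p_j` gives `p_j = 0`, `Re w_j = 0`; as `Re b > 0`,
`tan R = 0`, `R = 0`, `w = 0`, `r_j = 0`, `a R = π`: contradiction.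
`R > 0`: if `R = 0`, `I > 0`: `tan z = i tanh I`, `Re (b i tanh I) = - Im b tanh I ≥ 0` and `Im b ≥ 0`,
so `w_j = i |b_j| tanh I`; either `p_j = 0` or `r_j = π/2`, `cosh p_j = |b_j| tanh I ≤ 1.1 tanh I`, which
gives `p_j < I`. So `p_j < I` for all `j`, and `a I = ∑ p_j < d I ≤ a I`: contradiction.
Then `w_j = ρ |t| e^{i(α + β)}` with `0 ≤ α + β < π` and `Re w_j ≥ 0`, so `α + β ≤ π/2`.
-/

namespace Pool.Agent.AT2.E

open Complex Pool.Agent.AT.E
open Pool.Agent.S3.E hiding bo ro be KK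

variable {ι : Type*}

/-- Real and imaginary part and norm of `(conj κ)^τ`. -/
private theorem Sys_bb {τ : ℝ} {κ : ℂ} (h0 : 0 ≤ τ) (h1 : τ ≤ 1) (hr : 0 < κ.re) (hi : κ.im ≤ 0)
    (hn : ‖κ‖ ≤ 1.1) : 0 < (bb τ κ).re ∧ 0 ≤ (bb τ κ).im ∧ (bb τ κ).im ≤ 1.1 ∧ ‖bb τ κ‖ ≤ 1.1 := by
  set c : ℂ := (starRingEnd ℂ) κ with hc
  have hcr : 0 < c.re := by rw [hc, Complex.conj_re]; exact hr
  have hci : 0 ≤ c.im := by rw [hc, Complex.conj_im]; linarith
  have hcn : ‖c‖ ≤ 1.1 := by rw [hc, RCLike.norm_conj]; exact hn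
  have hc0 : c ≠ 0 := by
    intro h
    rw [h] at hcr
    simp at hcr
  have hcp : 0 < ‖c‖ := norm_pos_iff.mpr hc0
  have ha0 : 0 ≤ arg c := Complex.arg_nonneg_iff.mpr hci
  have ha1 : |arg c| < Real.pi / 2 := Complex.abs_arg_lt_pi_div_two_iff.mpr (Or.inl hcr)
  have ha2 : arg c < Real.pi / 2 := lt_of_le_of_lt (le_abs_self _) ha1
  have hb : bb τ κ = exp ((τ : ℂ) * log c) := rfl
  have hxr : ((τ : ℂ) * log c).re = τ * Real.log ‖c‖ := by
    rw [Complex.re_ofReal_mul, Complex.log_re]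
  have hxi : ((τ : ℂ) * log c).im = τ * arg c := by
    rw [Complex.im_ofReal_mul, Complex.log_im]
  have ht0 : 0 ≤ τ * arg c := mul_nonneg h0 ha0
  have ht1 : τ * arg c < Real.pi / 2 := by
    calc τ * arg c ≤ 1 * arg c := mul_le_mul_of_nonneg_right h1 ha0
      _ = arg c := one_mul _
      _ < Real.pi / 2 := ha2
  have hnorm : ‖bb τ κ‖ ≤ 1.1 := by
    rw [hb, Complex.norm_exp, hxr]
    have h2 : Real.exp (τ * Real.log ‖c‖) ≤ Real.exp (Real.log 1.1) := by
      apply Real.exp_le_exp.mpr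
      have h3 : Real.log ‖c‖ ≤ Real.log 1.1 := Real.log_le_log hcp hcn
      have h4 : 0 ≤ Real.log 1.1 := Real.log_nonneg (by norm_num)
      calc τ * Real.log ‖c‖ ≤ τ * Real.log 1.1 := mul_le_mul_of_nonneg_left h3 h0
        _ ≤ 1 * Real.log 1.1 := mul_le_mul_of_nonneg_right h1 h4
        _ = Real.log 1.1 := one_mul _
    rwa [Real.exp_log (by norm_num)] at h2
  refine ⟨?_, ?_, ?_, hnorm⟩
  · rw [hb, Complex.exp_re, hxi]
    apply mul_pos (Real.exp_pos _)
    apply Real.cos_pos_of_mem_Ioo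
    constructor
    · linarith [Real.pi_pos]
    · exact ht1
  · rw [hb, Complex.exp_im, hxi]
    apply mul_nonneg (Real.exp_pos _).le
    apply Real.sin_nonneg_of_nonneg_of_le_pi ht0
    linarith [Real.pi_pos]
  · exact le_trans (Complex.im_le_norm _) hnorm

/-- The two real equations of a zero. -/
theorem zero_eqs {a h : ι → ℝ} {N : ι → Finset ι} {τ : ℝ} {z : ι → ℂ}
    (h0 : GG a h N τ z = 0) (i : ι) :
    a i * (z i).re + (∑ j ∈ N i, RR (bo τ z j * tan (z i)) + h i * RR (tan (z i))) = Real.pi ∧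
      a i * (z i).im = ∑ j ∈ N i, PP (bo τ z j * tan (z i)) + h i * PP (tan (z i)) := by
  have h2 := congrFun h0 i
  have h1 : (a i : ℂ) * z i - (Real.pi : ℂ) -
    Complex.I * (∑ j ∈ N i, ash (bo τ z j * Complex.tan (z i)) +
      (h i : ℂ) * ash (tan (z i))) = 0 := h2
  have hre := congrArg Complex.re h1
  have him := congrArg Complex.im h1
  simp only [Complex.sub_re, Complex.sub_im,
    Complex.ofReal_re, Complex.ofReal_im, Complex.mul_re, Complex.mul_im, Complex.I_re,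
    Complex.I_im, Complex.add_re, Complex.add_im, Complex.re_sum, Complex.im_sum, ash_re, ash_im,
    Complex.zero_re, Complex.zero_im] at hre him
  constructor
  · linarith
  · linarith

private theorem Sys_cos {z : ℂ} : (cos z).re = Real.cos z.re * Real.cosh z.im ∧
    (cos z).im = -(Real.sin z.re * Real.sinh z.im) := by
  have h : cos z = cos ((z.re : ℂ) + (z.im : ℂ) * I) := by rw [Complex.re_add_im]
  rw [h, Complex.cos_add_mul_I]
  constructor
  · simp [← Complex.ofReal_cos, ← Complex.ofReal_cosh, ← Complex.ofReal_sin, ← Complex.ofReal_sinh]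
  · simp [← Complex.ofReal_cos, ← Complex.ofReal_cosh, ← Complex.ofReal_sin, ← Complex.ofReal_sinh]

/-- Membership in the region, unfolded. -/
private theorem Sys_mem {N : ι → Finset ι} {τ : ℝ} {z : ι → ℂ}
    (hx : ((τ, z) : ℝ × (ι → ℂ)) ∈ KK N) : (0 ≤ τ ∧ τ ≤ 1) ∧ ∀ i,
    (0 ≤ (z i).re ∧ (z i).re ≤ Real.pi / 2 ∧ 0 ≤ (z i).im ∧ (z i).im ≤ 2) ∧
    (0.49 ≤ ‖Complex.cos (z i)‖ ∧ ‖Complex.cos (z i)‖ ≤ 1.1 ∧
      -(Complex.cos (z i)).im ≤ 1.04 * (Complex.cos (z i)).re) ∧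
    ∀ j ∈ N i, 0 ≤ (bo τ z j * Complex.tan (z i)).re := hx

private theorem Sys_bo {N : ι → Finset ι} {τ : ℝ} {z : ι → ℂ}
    (hx : ((τ, z) : ℝ × (ι → ℂ)) ∈ KK N) (j : ι) :
    0 < (bo τ z j).re ∧ 0 ≤ (bo τ z j).im ∧ ‖bo τ z j‖ ≤ 1.1 := by
  obtain ⟨⟨hτ0, hτ1⟩, H⟩ := Sys_mem hx
  obtain ⟨⟨h1, h2, h3, -⟩, ⟨h4, h5, h6⟩, -⟩ := H j
  have hre := re_cos_pos h1 h2 h3 h4 h6
  have him : (cos (z j)).im ≤ 0 := by
    rw [Sys_cos.2]
    have hs : 0 ≤ Real.sin (z j).re :=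
      Real.sin_nonneg_of_nonneg_of_le_pi h1 (by linarith [Real.pi_pos])
    have hs2 : 0 ≤ Real.sinh (z j).im := Real.sinh_nonneg_iff.mpr h3
    have := mul_nonneg hs hs2
    linarith
  have h := Sys_bb hτ0 hτ1 hre him h5
  exact ⟨h.1, h.2.1, h.2.2.2⟩

/-- `R < π/2`. -/
private theorem Sys_R {N : ι → Finset ι} {τ : ℝ} {z : ι → ℂ}
    (hx : ((τ, z) : ℝ × (ι → ℂ)) ∈ KK N) (i : ι) : (z i).re < Real.pi / 2 := by
  obtain ⟨-, H⟩ := Sys_mem hx
  obtain ⟨⟨h1, h2, h3, -⟩, ⟨h4, h5, h6⟩, -⟩ := H i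
  have hre := re_cos_pos h1 h2 h3 h4 h6
  rcases lt_or_eq_of_le h2 with h | h
  · exact h
  · rw [Sys_cos.1, h, Real.cos_pi_div_two, zero_mul] at hre
    exact absurd hre (lt_irrefl _)

/-- `I > 0`. -/
private theorem Sys_I {a h : ι → ℝ} {N : ι → Finset ι} {τ : ℝ} {z : ι → ℂ} (hN : Nbr a h N)
    (hx : ((τ, z) : ℝ × (ι → ℂ)) ∈ KK N) (h0 : GG a h N τ z = 0) (i : ι) :
    0 < (z i).im := by
  obtain ⟨-, H⟩ := Sys_mem hx
  obtain ⟨⟨h1, h2, h3, -⟩, -, h7⟩ := H i
  have hR := Sys_R hx i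
  obtain ⟨e1, e2⟩ := zero_eqs h0 i
  by_contra hI
  have hI0 : (z i).im = 0 := le_antisymm (not_lt.mp hI) h3
  rw [hI0, mul_zero] at e2
  have hP1 : 0 ≤ ∑ j ∈ N i, PP (bo τ z j * tan (z i)) :=
    Finset.sum_nonneg fun j _ => PP_nonneg (bo τ z j * tan (z i))
  have hP2 : 0 ≤ h i * PP (tan (z i)) := mul_nonneg (hN.h0 i) (PP_nonneg _)
  have hP := (Finset.sum_eq_zero_iff_of_nonneg
    (fun j _ => PP_nonneg (bo τ z j * tan (z i)))).1 (by linarith)
  have hPh : h i * PP (tan (z i)) = 0 := by linarith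
  have hz : z i = ((z i).re : ℂ) := by
    apply Complex.ext
    · simp
    · simp [hI0]
  have htan : tan (z i) = ((Real.tan (z i).re : ℝ) : ℂ) := by
    rw [hz]
    simp
  have ht0 : 0 ≤ Real.tan (z i).re := Real.tan_nonneg_of_nonneg_of_le_pi_div_two h1 h2
  have ht : Real.tan (z i).re = 0 := by
    by_contra hne
    have htp : 0 < Real.tan (z i).re := lt_of_le_of_ne ht0 (Ne.symm hne)
    rcases hN.ne i with ⟨j, hj⟩ | hpos
    · obtain ⟨hb, -, -⟩ := Sys_bo hx j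
      have : 0 < (bo τ z j * tan (z i)).re := by
        rw [htan, Complex.re_mul_ofReal]
        exact mul_pos hb htp
      have := PP_pos this
      linarith [hP j hj]
    · have : 0 < (tan (z i)).re := by
        rw [htan, Complex.ofReal_re]
        exact htp
      have := mul_pos hpos (PP_pos this)
      linarith
  have hRR : ∀ j : ι, RR (bo τ z j * tan (z i)) = 0 := by
    intro j
    rw [htan, ht, Complex.ofReal_zero, mul_zero, ← ash_im, ash_zero, Complex.zero_im]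
  have hRh : RR (tan (z i)) = 0 := by
    rw [htan, ht, Complex.ofReal_zero, ← ash_im, ash_zero, Complex.zero_im]
  have hR0 : (z i).re = 0 := by
    by_contra hne
    have hp : 0 < (z i).re := lt_of_le_of_ne h1 (Ne.symm hne)
    have := Real.tan_pos_of_pos_of_lt_pi_div_two hp hR
    linarith
  rw [Finset.sum_congr rfl (fun j _ => hRR j), hR0, hRh] at e1
  simp only [mul_zero, Finset.sum_const_zero, add_zero] at e1
  linarith [Real.pi_pos]

/-- `R > 0`. -/
private theorem Sys_R0 {a h : ι → ℝ} {N : ι → Finset ι} {τ : ℝ} {z : ι → ℂ} (hN : Nbr a h N)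
    (hx : ((τ, z) : ℝ × (ι → ℂ)) ∈ KK N) (h0 : GG a h N τ z = 0) (i : ι) :
    0 < (z i).re := by
  have hI := Sys_I hN hx h0 i
  obtain ⟨-, H⟩ := Sys_mem hx
  obtain ⟨⟨h1, h2, h3, -⟩, -, h7⟩ := H i
  obtain ⟨e1, e2⟩ := zero_eqs h0 i
  by_contra hR
  have hR0 : (z i).re = 0 := le_antisymm (not_lt.mp hR) h1
  have hz : z i = ((z i).im : ℂ) * I := by
    apply Complex.ext
    · simp [hR0]
    · simp
  have htan : tan (z i) = ((Real.tanh (z i).im : ℝ) : ℂ) * I := by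
    rw [hz, Complex.tan_mul_I]
    simp
  have hsh : 0 < Real.sinh (z i).im := Real.sinh_pos_iff.mpr hI
  have hch : 1 ≤ Real.cosh (z i).im := Real.one_le_cosh _
  have hth : Real.tanh (z i).im = Real.sinh (z i).im / Real.cosh (z i).im :=
    Real.tanh_eq_sinh_div_cosh _
  have hth0 : 0 < Real.tanh (z i).im := by
    rw [hth]
    positivity
  have hth1 : Real.tanh (z i).im < 1 := Real.tanh_lt_one _
  have hths : Real.tanh (z i).im ≤ Real.sinh (z i).im := by
    rw [hth]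
    exact div_le_self hsh.le hch
  have fin : ∀ p : ℝ, (z i).im ≤ p → Real.cosh p ≤ 1.1 * Real.tanh (z i).im → False := by
    intro p hp hc
    have hsp : Real.sinh (z i).im ≤ Real.sinh p := Real.sinh_le_sinh.mpr hp
    have hc1 : 1 ≤ Real.cosh p := Real.one_le_cosh p
    have hid := Real.cosh_sq p
    nlinarith
  have key0 : ∀ b : ℂ, 0 < b.re → 0 ≤ b.im → ‖b‖ ≤ 1.1 → 0 ≤ (b * tan (z i)).re →
      PP (b * tan (z i)) < (z i).im := by
    intro b hb hb' hbn h8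
    have him : (b * tan (z i)).im = b.re * Real.tanh (z i).im := by
      rw [htan, ← mul_assoc, Complex.mul_I_im, Complex.re_mul_ofReal]
    have hre : (b * tan (z i)).re = -(b.im * Real.tanh (z i).im) := by
      rw [htan, ← mul_assoc, Complex.mul_I_re, Complex.im_mul_ofReal]
    have hre0 : (b * tan (z i)).re = 0 := by
      have h9 := mul_nonneg hb' hth0.le
      linarith
    have him0 : 0 ≤ (b * tan (z i)).im := by
      rw [him]
      positivity
    have h8 := sinh_cos_eq hre0.ge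
    rw [hre0] at h8
    by_contra hcon
    push Not at hcon
    have hPp : 0 < PP (b * tan (z i)) := lt_of_lt_of_le hI hcon
    have hcos : Real.cos (RR (b * tan (z i))) = 0 := by
      rcases mul_eq_zero.1 h8 with h9 | h9
      · exact absurd h9 (Real.sinh_pos_iff.2 hPp).ne'
      · exact h9
    have hr : RR (b * tan (z i)) = Real.pi / 2 := by
      by_contra hne
      have h9 := RR_le (b * tan (z i))
      have h10 := RR_nonneg (b * tan (z i))
      have h11 : 0 < Real.cos (RR (b * tan (z i))) :=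
        Real.cos_pos_of_mem_Ioo ⟨by linarith [Real.pi_pos], lt_of_le_of_ne h9 hne⟩
      linarith
    have h := cosh_sin_eq him0
    rw [hr, Real.sin_pi_div_two, mul_one, him] at h
    refine fin _ hcon ?_
    rw [h]
    exact mul_le_mul_of_nonneg_right (le_trans (Complex.re_le_norm _) hbn) hth0.le
  have key : ∀ j ∈ N i, PP (bo τ z j * tan (z i)) < (z i).im := by
    intro j hj
    obtain ⟨hb, hb', hbn⟩ := Sys_bo hx j
    exact key0 _ hb hb' hbn (h7 j hj)
  have keyh : PP (tan (z i)) < (z i).im := by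
    have h8 := key0 1 (by simp) (by simp) (by norm_num) (by
      rw [one_mul, htan, Complex.mul_I_re, Complex.ofReal_im, neg_zero])
    rwa [one_mul] at h8
  have hle : ∑ j ∈ N i, PP (bo τ z j * tan (z i)) ≤ ∑ _j ∈ N i, (z i).im :=
    Finset.sum_le_sum fun j hj => (key j hj).le
  have hleh : h i * PP (tan (z i)) ≤ h i * (z i).im :=
    mul_le_mul_of_nonneg_left keyh.le (hN.h0 i)
  have hcard := mul_le_mul_of_nonneg_right (hN.card i) hI.le
  rcases hN.ne i with hne | hpos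
  · have hlt : ∑ j ∈ N i, PP (bo τ z j * tan (z i)) < ∑ _j ∈ N i, (z i).im :=
      Finset.sum_lt_sum_of_nonempty hne key
    rw [Finset.sum_const, nsmul_eq_mul] at hlt
    linarith
  · have hlt := mul_lt_mul_of_pos_left keyh hpos
    rw [Finset.sum_const, nsmul_eq_mul] at hle
    linarith

theorem zero_pos {a h : ι → ℝ} {N : ι → Finset ι} {τ : ℝ} {z : ι → ℂ} (hN : Nbr a h N)
    (hx : ((τ, z) : ℝ × (ι → ℂ)) ∈ KK N) (h0 : GG a h N τ z = 0) :
    ∀ i, 0 < (z i).re ∧ (z i).re < Real.pi / 2 ∧ 0 < (z i).im :=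
  fun i => ⟨Sys_R0 hN hx h0 i, Sys_R hx i, Sys_I hN hx h0 i⟩

/-- One slot of a zero. -/
private theorem Sys_slot {τ : ℝ} {z : ι → ℂ} (hτ0 : 0 ≤ τ) (hτ1 : τ ≤ 1)
    (hp : ∀ i, 0 < (z i).re ∧ (z i).re < Real.pi / 2 ∧ 0 < (z i).im)
    (hcos : ∀ i, 0 < ‖cos (z i)‖) (i j : ι)
    (hre : 0 ≤ (bo τ z j * tan (z i)).re) :
    Slot (z i).re (z i).im (ro τ z j) (be τ z j) (PP (bo τ z j * tan (z i)))
      (RR (bo τ z j * tan (z i))) := by
  obtain ⟨hR0, hR1, hI⟩ := hp i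
  have hal0 := al_pos hR0 hR1 hI
  have hal1 := al_lt (z i).re (z i).im
  have htt := tt_pos (R := (z i).re) (I := (z i).im) hR0 hR1
  have hro : 0 ≤ ro τ z j := Real.rpow_nonneg (norm_nonneg _) _
  have hbe : 0 ≤ be τ z j ∧ be τ z j < Real.pi / 2 := by
    obtain ⟨hR0, hR1, hI⟩ := hp j
    have h1 := ph_pos hR0 hR1 hI
    have h2 := ph_lt (z j).re (z j).im
    refine ⟨mul_nonneg hτ0 h1.le, ?_⟩
    calc τ * ph (z j).re (z j).im ≤ 1 * ph (z j).re (z j).im :=
          mul_le_mul_of_nonneg_right hτ1 h1.le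
      _ = ph (z j).re (z j).im := one_mul _
      _ < Real.pi / 2 := h2
  have hpol : bo τ z j * tan (z i) =
      ((ro τ z j * tt (z i).re (z i).im : ℝ) : ℂ) *
        exp (((al (z i).re (z i).im + be τ z j : ℝ) : ℂ) * I) := by
    rw [bo_polar ⟨(hp j).1, (hp j).2.1⟩, tan_polar hR0 hR1]
    push_cast
    rw [add_mul, Complex.exp_add]
    ring
  have hwre : (bo τ z j * tan (z i)).re =
      ro τ z j * tt (z i).re (z i).im * Real.cos (al (z i).re (z i).im + be τ z j) := by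
    rw [hpol, Complex.re_ofReal_mul, Complex.exp_ofReal_mul_I_re]
  have hwim : (bo τ z j * tan (z i)).im =
      ro τ z j * tt (z i).re (z i).im * Real.sin (al (z i).re (z i).im + be τ z j) := by
    rw [hpol, Complex.im_ofReal_mul, Complex.exp_ofReal_mul_I_im]
  have him : 0 ≤ (bo τ z j * tan (z i)).im := by
    rw [hwim]
    apply mul_nonneg (mul_nonneg hro htt.le)
    apply Real.sin_nonneg_of_nonneg_of_le_pi
    · linarith [hbe.1]
    · linarith [hbe.2]
  refine ⟨PP_nonneg _, RR_nonneg _, RR_le _, hro, hbe.1, ?_, ?_, ?_⟩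
  · by_contra hlt
    have hlt' := not_le.mp hlt
    have hc : Real.cos (al (z i).re (z i).im + be τ z j) < 0 := by
      apply Real.cos_neg_of_pi_div_two_lt_of_lt hlt'
      linarith [hbe.2, Real.pi_pos]
    have hrop : 0 < ro τ z j := Real.rpow_pos_of_pos (hcos j) _
    have := mul_neg_of_pos_of_neg (mul_pos hrop htt) hc
    rw [← hwre] at this
    linarith
  · rw [sinh_cos_eq hre, hwre]
  · rw [cosh_sin_eq him, hwim]

/-- The slot `u`. -/
theorem ash_tan {z : ℂ} (h : 0 < z.re) (h' : z.re < Real.pi / 2) (hI : 0 < z.im) :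
    ash (tan z) = ((xx z.re z.im : ℝ) : ℂ) + ((th z.re z.im : ℝ) : ℂ) * I := by
  have h2 := sinh_u h h' hI
  rw [← h2, ash_sinh (xx_pos h h' hI).le (th_pos h h' hI).le (th_lt h h' hI).le]

theorem PP_tan {z : ℂ} (h : 0 < z.re) (h' : z.re < Real.pi / 2) (hI : 0 < z.im) :
    PP (tan z) = xx z.re z.im := by
  rw [← ash_re, ash_tan h h' hI]
  simp

theorem RR_tan {z : ℂ} (h : 0 < z.re) (h' : z.re < Real.pi / 2) (hI : 0 < z.im) :
    RR (tan z) = th z.re z.im := by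
  rw [← ash_im, ash_tan h h' hI]
  simp

theorem zero_vx {a h : ι → ℝ} {N : ι → Finset ι} {τ : ℝ} {z : ι → ℂ} (hN : Nbr a h N)
    (hx : ((τ, z) : ℝ × (ι → ℂ)) ∈ KK N) (h0 : GG a h N τ z = 0) (i : ι) :
    Vx (a i) (h i) (z i).re (z i).im (N i) (ro τ z) (be τ z)
      (fun j => PP (bo τ z j * tan (z i))) (fun j => RR (bo τ z j * tan (z i))) := by
  have hp := zero_pos hN hx h0
  obtain ⟨⟨hτ0, hτ1⟩, H⟩ := Sys_mem hx
  have hcos : ∀ i, 0 < ‖cos (z i)‖ := by
    intro i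
    have := (H i).2.1.1
    have h49 : (0 : ℝ) < 0.49 := by norm_num
    linarith
  obtain ⟨e1, e2⟩ := zero_eqs h0 i
  rw [RR_tan (hp i).1 (hp i).2.1 (hp i).2.2] at e1
  rw [PP_tan (hp i).1 (hp i).2.1 (hp i).2.2] at e2
  exact ⟨hN.a3 i, hN.h0 i, hN.ne i, hN.card i, fun h1 => (hN.big i h1).2, (hp i).1, (hp i).2.1,
    (hp i).2.2, fun j hj => Sys_slot hτ0 hτ1 hp hcos i j ((H i).2.2 j hj), e1, e2⟩

end Pool.Agent.AT2.E
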