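import Pool.Agent.AT2.E.VA

/-!
# Project AT2, block E: diagonal dominance and the existence of the critical point
-/

namespace Pool.Agent.AT2.E

open Real Pool.Agent.AT.E
open Pool.Agent.S3.E hiding bo ro be KK

variable {ι : Type*} {a w R I : ℝ} {J : Finset ι} {ρ β p r : ι → ℝ}

/-- Diagonal dominance. -/
theorem Vx.dom3 (h : Vx a w R I J ρ β p r) (hk : k2 R I ≤ 1) (hρ : ∀ j ∈ J, ρ j ≤ 1) {z : ℂ}
    (hz : z.re = R) (hz' : z.im = I) (hpos : ∀ j ∈ J, 0 < cosh (2 * p j) + cos (2 * r j)) :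
    s2 R I * ∑ j ∈ J, ‖Complex.tanh ((p j : ℂ) + (r j : ℂ) * Complex.I)‖ <
      ‖(a : ℂ) * (Complex.cos z * Complex.sin z) -
        Complex.I * (∑ j ∈ J, Complex.tanh ((p j : ℂ) + (r j : ℂ) * Complex.I) +
          (w : ℂ) * Complex.tanh ((xx R I : ℂ) + (th R I : ℂ) * Complex.I))‖ := by
  have hR0 := h.R0
  have hR1 := h.R1
  have hI0 := h.I0
  have ha := h.a3
  have hp3 : (3.1415 : ℝ) < π := pi_gt_d4
  have hp4 : π < (3.1416 : ℝ) := pi_lt_d4
  have h3R : 3 * R ≤ a * R := mul_le_mul_of_nonneg_right ha hR0.le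
  have hrr : ∑ j ∈ J, r j ≤ π - 3 * R := by linarith [h.sum_r_le]
  have hw0 := h.h0
  have hr0 : ∀ j ∈ J, 0 ≤ r j := fun j hj => (h.sl j hj).r0
  have hrj : ∀ j ∈ J, r j ≤ π - 3 * R := fun j hj =>
    (Finset.single_le_sum (f := r) hr0 hj).trans hrr
  obtain ⟨T, hT⟩ : ∃ T : ι → ℂ, T = fun j => Complex.tanh ((p j : ℂ) + (r j : ℂ) * Complex.I) :=
    ⟨_, rfl⟩
  have hTj : ∀ j, Complex.tanh ((p j : ℂ) + (r j : ℂ) * Complex.I) = T j := fun j => by rw [hT]
  simp only [hTj]
  have hsl := half_slot hR0 hR1 hI0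
  obtain ⟨U, hU⟩ : ∃ U : ℂ, U = Complex.tanh ((xx R I : ℂ) + (th R I : ℂ) * Complex.I) := ⟨_, rfl⟩
  rw [← hU]
  have hUq := tanh_quadrant hsl.p0 hsl.r0 hsl.r1
  rw [← hU] at hUq
  have hq : ∀ j ∈ J, ‖T j‖ ≤ (T j).re + (T j).im := by
    intro j hj
    have hq1 := tanh_quadrant (h.sl j hj).p0 (h.sl j hj).r0 (h.sl j hj).r1
    rw [hTj] at hq1
    have := Complex.norm_le_abs_re_add_abs_im (T j)
    rwa [abs_of_nonneg hq1.1, abs_of_nonneg hq1.2] at this
  have hqU : ‖U‖ ≤ U.re + U.im := by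
    have := Complex.norm_le_abs_re_add_abs_im U
    rwa [abs_of_nonneg hUq.1, abs_of_nonneg hUq.2] at this
  have hproj := proj_cs z (∑ j ∈ J, T j + (w : ℂ) * U) a
  rw [hz, hz', Complex.add_re, Complex.add_im, Complex.re_ofReal_mul, Complex.im_ofReal_mul,
    Complex.re_sum, Complex.im_sum] at hproj
  refine lt_of_lt_of_le ?_ hproj
  rw [lt_div_iff₀ (by positivity)]
  have hX := pos_cs hR0 hR1 hI0 hk
  have hsig := h.sig3 hk hρ
  have hU1 : ‖U‖ ≤ 1 := by
    have h1 := sinh_u (z := ⟨R, I⟩) hR0 hR1 hI0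
    have h2 := cosh_u (z := ⟨R, I⟩) hR0 hR1 hI0
    simp only at h1 h2
    have hc : Complex.cos ⟨R, I⟩ ≠ 0 := by
      intro h0
      rw [h0, mul_zero] at h2
      exact zero_ne_one h2
    have hch : Complex.cosh ((xx R I : ℂ) + (th R I : ℂ) * Complex.I) ≠ 0 := by
      intro h0
      rw [h0, zero_mul] at h2
      exact zero_ne_one h2
    have h3 : U = Complex.sin ⟨R, I⟩ := by
      rw [hU, Complex.tanh_eq_sinh_div_cosh, h1, Complex.tan_eq_sin_div_cos, div_div,
        mul_comm (Complex.cos _), h2, div_one]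
    have h4 := norm_sin_sq ⟨R, I⟩
    simp only at h4
    rw [h3]
    have h5 := norm_nonneg (Complex.sin ⟨R, I⟩)
    nlinarith
  have hcg : cc I + gg R ≤ 2 := by
    unfold k2 at hk
    linarith
  have hcg' : cc I - gg R ≤ 2 := by
    unfold s2 at hsig
    linarith
  have hN : ∑ j ∈ J, ‖T j‖ ≤ ∑ j ∈ J, (T j).re + ∑ j ∈ J, (T j).im := by
    rw [← Finset.sum_add_distrib]
    exact Finset.sum_le_sum hq
  have hN0 : 0 ≤ ∑ j ∈ J, ‖T j‖ := Finset.sum_nonneg fun j _ => norm_nonneg _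
  have hNU : w * ‖U‖ ≤ w * U.re + w * U.im := by
    rw [← mul_add]
    exact mul_le_mul_of_nonneg_left hqU hw0
  have hNU1 : w * ‖U‖ ≤ w := by
    calc w * ‖U‖ ≤ w * 1 := mul_le_mul_of_nonneg_left hU1 hw0
      _ = w := mul_one w
  have hNU0 : 0 ≤ w * ‖U‖ := mul_nonneg hw0 (norm_nonneg _)
  -- the sum
  have hsumB : ∀ B : ℝ, 1 ≤ B → (∀ j ∈ J, ‖T j‖ ≤ B) → ∑ j ∈ J, r j < π / 2 →
      (∀ j ∈ J, r j ≤ π / 4 → ‖T j‖ ≤ 1) → ∑ j ∈ J, ‖T j‖ + w * ‖U‖ ≤ a - 1 + B := by
    intro B hB hb hs hone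
    rcases J.eq_empty_or_nonempty with hJ | hJ
    · have h1 := h.card
      rw [hJ, Finset.card_empty] at h1
      rw [hJ, Finset.sum_empty]
      push_cast at h1
      linarith
    · have := V3_sum hB hb hone hr0 hs hJ
      have := h.card
      linarith
  have hone : ∀ j ∈ J, r j ≤ π / 4 → ‖T j‖ ≤ 1 := by
    intro j hj hr
    rw [← hTj]
    apply V3_norm (u := 0) (hpos j hj) le_rfl (by norm_num) _ (by norm_num) (by norm_num)
    rw [neg_zero]
    exact cos_nonneg_of_mem_Icc ⟨by linarith [hr0 j hj], by linarith⟩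
  have hcard := h.card
  have hmain : (cc I - gg R) / 2 * (∑ j ∈ J, ‖T j‖ + w * ‖U‖) * √2 <
      a / 2 * (cc I * sin (2 * R) - gg R * sinh (2 * I)) + (∑ j ∈ J, ‖T j‖ + w * ‖U‖) := by
    apply V3_num (add_nonneg hN0 hNU0) (sin_two_pos hR0 hR1) (sin_two_sq R) (sinh_two_pos hI0).le
      (sinh_two_sq I) hcg hcg' hX (one_le_cc I) ha
    · intro hg
      refine ⟨h.gg_ge, ?_⟩
      have hR4 : π / 4 ≤ R := by
        by_contra hcon
        push Not at hcon
        have : 0 < gg R := by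
          unfold gg
          exact cos_pos_of_mem_Ioo ⟨by linarith, by linarith⟩
        linarith
      have h1 : ∑ j ∈ J, ‖T j‖ ≤ ∑ _j ∈ J, (1 : ℝ) :=
        Finset.sum_le_sum fun j hj => hone j hj (by linarith [hrj j hj])
      rw [Finset.sum_const, nsmul_eq_mul, mul_one] at h1
      linarith
    · intro hg hg2
      have hR7 : 0.7 ≤ R := by
        by_contra hcon
        push Not at hcon
        have h5 : sin (π / 2 - 2 * R) = gg R := by
          unfold gg
          exact sin_pi_div_two_sub _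
        have h6 : sin 0.17 ≤ sin (π / 2 - 2 * R) :=
          sin_le_sin_of_le_of_le_pi_div_two (by linarith) (by linarith) (by linarith)
        have h7 := sin_gt_sub_cube (x := 0.17) (by norm_num)
        norm_num at h7 h6
        linarith
      have hb : ∀ j ∈ J, ‖T j‖ ≤ 1.7321 := by
        intro j hj
        rw [← hTj]
        refine V3_norm (u := 1 / 2) (hpos j hj) (by norm_num) (by norm_num) ?_
          (by norm_num) (by norm_num)
        have h5 : cos (2 * π / 3) ≤ cos (2 * r j) :=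
          cos_le_cos_of_nonneg_of_le_pi (by linarith [hr0 j hj]) (by linarith)
            (by linarith [hrj j hj])
        have h6 : cos (2 * π / 3) = -(1 / 2) := by
          have : 2 * π / 3 = π - π / 3 := by ring
          rw [this, cos_pi_sub, cos_pi_div_three]
        linarith
      exact hsumB _ (by norm_num) hb (by linarith) hone
    · intro hg hg2
      have hR7 : 0.63 ≤ R := by
        by_contra hcon
        push Not at hcon
        have h5 : sin (π / 2 - 2 * R) = gg R := by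
          unfold gg
          exact sin_pi_div_two_sub _
        have h6 : sin 0.31 ≤ sin (π / 2 - 2 * R) :=
          sin_le_sin_of_le_of_le_pi_div_two (by linarith) (by linarith) (by linarith)
        have h7 := sin_gt_sub_cube (x := 0.31) (by norm_num)
        norm_num at h7 h6 hg2
        linarith
      have hb : ∀ j ∈ J, ‖T j‖ ≤ 3.09 := by
        intro j hj
        rw [← hTj]
        refine V3_norm (u := 0.81) (hpos j hj) (by norm_num) (by norm_num) ?_
          (by norm_num) (by norm_num)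
        have h5 : cos (π - 2 * r j) ≤ cos 0.638 :=
          cos_le_cos_of_nonneg_of_le_pi (by norm_num) (by linarith [hr0 j hj])
            (by linarith [hrj j hj])
        rw [cos_pi_sub] at h5
        have h6 := cos_bound (x := 0.638) (by norm_num [abs_le])
        have h7 := (abs_le.1 h6).2
        have h8 : |(0.638 : ℝ)| = 0.638 := abs_of_pos (by norm_num)
        rw [h8] at h7
        norm_num at h7 h5 ⊢
        linarith
      exact hsumB _ (by norm_num) hb (by linarith) hone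
  have hs2 : (cc I - gg R) / 2 * (∑ j ∈ J, ‖T j‖) * √2 ≤
      (cc I - gg R) / 2 * (∑ j ∈ J, ‖T j‖ + w * ‖U‖) * √2 := by
    apply mul_le_mul_of_nonneg_right _ (sqrt_nonneg 2)
    apply mul_le_mul_of_nonneg_left (by linarith)
    have := s2_pos (I := I) hR0 hR1
    unfold s2 at this
    exact this.le
  unfold s2
  linarith

namespace Zr

variable {a w : ι → ℝ} {N : ι → Finset ι} {τ : ℝ} {z : ι → ℂ}

theorem k2_le [Finite ι] (h : Zr a w N τ z) (i : ι) : k2 (z i).re (z i).im ≤ 1 :=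
  h.k2_le_of (fun i h1 h2 => by
    have := (h.vx i).lemA fun j _ => h2 j
    linarith) i

theorem k2_lt [Finite ι] (h : Zr a w N τ z) (hτ : 0 < τ) (i : ι) : k2 (z i).re (z i).im < 1 :=
  h.k2_lt_of (fun i h1 h2 => by
    have := (h.vx i).lemA' (fun j _ => h2 j) fun j _ => Or.inl (h.be_pos hτ j)
    linarith) i

theorem ro_le [Finite ι] (h : Zr a w N τ z) (j : ι) : ro τ z j ≤ 1 := h.ro_le_one_of (h.k2_le j)

/-- The angle `φ`. -/
theorem phi3 [Finite ι] (h : Zr a w N τ z) (i : ι) :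
    ph (z i).re (z i).im ≤ 9 / 20 ∧ (ph (z i).re (z i).im ≤ 1 / 3 ∨
      21 / 50 ≤ k2 (z i).re (z i).im) := (h.vx i).phi3 (h.k2_le i) fun j _ => h.ro_le j

theorem be_le [Finite ι] (h : Zr a w N τ z) (j : ι) : be τ z j ≤ 9 / 20 :=
  (h.be_le_ph j).trans (h.phi3 j).1

/-- The one-vertex inequalities. -/
theorem vb [Finite ι] (h : Zr a w N τ z) : Vb a w N τ z := by
  have hpi := Real.pi_gt_d4
  have hlt : ∀ i j, al (z i).re (z i).im + be τ z j < Real.pi / 2 := by
    intro i j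
    have h1 := (h.vx i).lemC (h.k2_le i) fun j _ => h.ro_le j
    have h2 := h.be_le j
    linarith
  refine
    { k2_le := h.k2_le
      k2_ge := fun i => (h.vx i).lemL3
      ph_le := fun i => (h.vx i).lemB (h.k2_le i) fun j _ => h.ro_le j
      al_be_lt := fun i j _ => hlt i j
      dom := ?_ }
  intro i
  rw [ash_tan (h.pos i).1 (h.pos i).2.1 (h.pos i).2.2]
  refine (h.vx i).dom3 (h.k2_le i) (fun j _ => h.ro_le j) (z := z i) rfl rfl ?_
  intro j hj
  have hs := (h.vx i).sl j hj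
  have hp := hs.p0
  -- `p > 0`
  have h1 : 0 < sinh (PP (bo τ z j * Complex.tan (z i))) * cos (RR (bo τ z j * Complex.tan (z i))) := by
    rw [hs.e1]
    apply mul_pos (mul_pos (h.ro_pos j) (h.ttpos i))
    apply Real.cos_pos_of_mem_Ioo
    constructor
    · linarith [h.alpos i, h.be_nonneg j]
    · exact hlt i j
  have h2 : PP (bo τ z j * Complex.tan (z i)) ≠ 0 := by
    intro h0
    rw [h0] at h1
    simp at h1
  have h3 : 1 < cosh (2 * PP (bo τ z j * Complex.tan (z i))) := Real.one_lt_cosh.2 (by simpa using h2)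
  linarith [Real.neg_one_le_cos (2 * RR (bo τ z j * Complex.tan (z i)))]

/-! ### The facts about a zero of the system at `τ = 1` -/

theorem ro_half [Finite ι] (h : Zr a w N 1 z) (j : ι) : 1 / 2 ≤ ro 1 z j := by
  rw [AT.E.Zr.ro_one]
  exact h.norm_ge_of (h.vx j).lemL3

theorem R_lt [Finite ι] (h : Zr a w N 1 z) (i : ι) : (z i).re < 8 / 25 * Real.pi :=
  (h.vx i).R_lt fun j _ => h.ro_half j

theorem ro_ge [Finite ι] (h : Zr a w N 1 z) (j : ι) : 53 / 100 ≤ ro 1 z j := by
  rw [AT.E.Zr.ro_one]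
  have h1 := norm_cos_sq (z j)
  have h2 := Pool.Agent.S3.E.Zr.cos_ge (h.pos j).1.le (h.R_lt j).le
  refine le_of_sq_le_sq ?_ (norm_nonneg _)
  have h4 : (53 / 100 : ℝ) ^ 2 ≤ Real.cos (z j).re ^ 2 := pow_le_pow_left₀ (by norm_num) h2 2
  have h5 := sq_nonneg (Real.sinh (z j).im)
  rw [h1, k2_sc]
  linarith

theorem be_or [Finite ι] (h : Zr a w N 1 z) (j : ι) :
    be 1 z j ≤ 1 / 3 ∨ 21 / 50 ≤ ro 1 z j ^ 2 := by
  have h1 := norm_cos_sq (z j)
  rw [AT.E.Zr.ro_one, h1]
  have h2 := (h.phi3 j).2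
  unfold be
  rw [one_mul]
  exact h2

theorem th_le [Finite ι] (h : Zr a w N 1 z) (i : ι) : th (z i).re (z i).im ≤ 27 / 50 :=
  (h.vx i).th_le (h.k2_le i) fun j _ => h.ro_le j

theorem th_ge [Finite ι] (h : Zr a w N 1 z) {i : ι} (hi : a i = 3) :
    7 / 25 ≤ th (z i).re (z i).im := by
  have hw : w i = 0 := by
    rcases (h.nb.h0 i).eq_or_lt with h0 | h0
    · exact h0.symm
    · have := (h.nb.big i h0).2.1
      linarith
  have hv := (h.vx i).toAT hw
  rw [hi] at hv
  exact hv.low3 (fun j _ => h.ro_ge j) (fun j _ => h.ro_le j)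
    (fun j _ => h.be_le j) fun j _ => h.be_or j

theorem R_lt' [Finite ι] (h : Zr a w N 1 z) (i : ι) : (z i).re / Real.pi < 13 / 40 := by
  rw [div_lt_iff₀ Real.pi_pos]
  have := h.R_lt i
  have := Real.pi_pos
  linarith

theorem R_le [Finite ι] (h : Zr a w N 1 z) {i : ι} (hi : 0 < w i) :
    (z i).re / Real.pi ≤ 2 / 7 := by
  rw [div_le_iff₀ Real.pi_pos]
  have := (h.vx i).R_le hi
  linarith

theorem pos_lt [Finite ι] (h : Zr a w N 1 z) (i : ι) :
    2 * (Real.sin (th (z i).re (z i).im) * Real.cosh (xx (z i).re (z i).im)) ^ 2 < 1 :=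
  (h.vx i).pos_lt (h.k2_le i) fun j _ => h.ro_le j

end Zr

/-- **Existence of the critical point.** -/
theorem exists_crit [Fintype ι] {a w : ι → ℝ} {N : ι → Finset ι} (hN : Nbr a w N) :
    ∃ z : ι → ℂ, Zr a w N 1 z := exists_zero hN fun _ _ h => h.vb

end Pool.Agent.AT2.E
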